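import Pool.Agent.V11300.BB.Main

/-!
# MP_812af1_co, Q1 (negative answer)

There are two equivalent normalised `BH(4, 16)` matrices, the first one row and column balanced,
the second one column balanced but not row balanced.
-/

namespace Pool.Agent.Results.MP_812af1_co.BalanceNotInvariant

open Pool.Agent.V11300.BB Finset

theorem result :
    (∃ H H' : Matrix (Fin 16) (Fin 16) ℂ,
      IsBH 4 16 H ∧ IsBH 4 16 H' ∧ Eqv 4 H H' ∧ Normalised H ∧ Normalised H' ∧
      (RowBalanced 4 H ∧ ColBalanced 4 H) ∧ (ColBalanced 4 H' ∧ ¬ RowBalanced 4 H')) ∧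
    ¬ (∀ m n : ℕ, 1 ≤ m → 2 ≤ n → ∀ H : Matrix (Fin n) (Fin n) ℂ, IsBH m n H →
      (∀ K, Eqv m H K → Normalised K → RowBalanced m K ∧ ColBalanced m K) ∨
      (∀ K, Eqv m H K → Normalised K → ¬ (RowBalanced m K ∧ ColBalanced m K))) := by
  refine ⟨⟨H, H', H_BH, H'_BH, H'_eqv, H_norm, H'_norm, ⟨H_row, H_col⟩, H'_col, H'_not_row⟩,
    fun h => ?_⟩
  rcases h 4 16 (by norm_num) (by norm_num) H H_BH with h1 | h1
  · exact H'_not_row (h1 H' H'_eqv H'_norm).1
  · exact h1 H Eqv.refl H_norm ⟨H_row, H_col⟩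

end Pool.Agent.Results.MP_812af1_co.BalanceNotInvariant
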